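import Pool.Agent.Helper59.ML.BIJ

/-!
# Project PL v7, block GCG, part 3: Kummer extensions of prime degree
-/

set_option autoImplicit false

namespace Pool.Agent.PRG

open IntermediateField Polynomial

/-- The generator of the group of a Kummer extension of prime degree. -/
theorem kummer10 {E Ω : Type} [Field E] [Field Ω] [Algebra E Ω] [IsAlgClosed Ω]
    (L : IntermediateField E Ω) (halg : Algebra.IsAlgebraic L Ω) {ℓ : ℕ} (hℓ : ℓ.Prime) {r : Ω}
    {a : L} (hr : r ^ ℓ = a) (ha : ∀ b : L, b ^ ℓ ≠ a) {ζ : E} (hζ : IsPrimitiveRoot ζ ℓ) :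
    ∃ T : Ω ≃+* Ω, (∀ z ∈ L, T z = z) ∧ T r = algebraMap E Ω ζ * r ∧
      ∀ z ∈ IntermediateField.adjoin L {r}, T z ∈ IntermediateField.adjoin L {r} ∧
        T⁻¹ z ∈ IntermediateField.adjoin L {r} ∧ (T ^ ℓ) z = z ∧ (T z = z → z ∈ L) := by
  have hcl : IsAlgClosure L Ω := ⟨inferInstance, halg⟩
  have hnorm : Normal L Ω := IsAlgClosure.normal L Ω
  have hirr : Irreducible (X ^ ℓ - C a) := X_pow_sub_C_irreducible_of_prime hℓ ha
  have hmon : (X ^ ℓ - C a : L[X]).Monic := monic_X_pow_sub_C a hℓ.ne_zero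
  have hm : ∀ s : Ω, s ^ ℓ = a → minpoly L s = X ^ ℓ - C a := by
    intro s hs
    refine (minpoly.eq_of_irreducible_of_monic hirr ?_ hmon).symm
    rw [map_sub, map_pow, aeval_X, aeval_C, hs]
    exact sub_self _
  have hζℓ : (algebraMap E Ω ζ) ^ ℓ = 1 := by rw [← map_pow, hζ.pow_eq_one, map_one]
  have hζr : (algebraMap E Ω ζ * r) ^ ℓ = a := by rw [mul_pow, hζℓ, one_mul, hr]
  have hr0 : r ≠ 0 := by
    rintro rfl
    apply ha 0
    rw [zero_pow hℓ.ne_zero] at hr ⊢
    exact Subtype.ext hr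
  have h1 : minpoly L (algebraMap E Ω ζ * r) = minpoly L r := by rw [hm _ hζr, hm _ hr]
  obtain ⟨T, hT⟩ := (Normal.minpoly_eq_iff_mem_orbit Ω).1 h1
  have hTr : T r = algebraMap E Ω ζ * r := hT
  have hTL : ∀ z ∈ L, T z = z := fun z hz => T.commutes ⟨z, hz⟩
  have hζL : algebraMap E Ω ζ ∈ IntermediateField.adjoin L {r} :=
    (IntermediateField.adjoin L {r}).algebraMap_mem (algebraMap E L ζ)
  have hrm : r ∈ IntermediateField.adjoin L {r} := mem_adjoin_simple_self L r
  have hζ0 : algebraMap E Ω ζ ≠ 0 := (_root_.map_ne_zero _).2 (hζ.ne_zero hℓ.ne_zero)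
  have hTζ : T (algebraMap E Ω ζ) = algebraMap E Ω ζ := hTL _ (L.algebraMap_mem ζ)
  have hTr' : T⁻¹ r = (algebraMap E Ω ζ)⁻¹ * r := by
    have h2 : T ((algebraMap E Ω ζ)⁻¹ * r) = r := by
      rw [map_mul, map_inv₀, hTζ, hTr, ← mul_assoc, inv_mul_cancel₀ hζ0, one_mul]
    conv_lhs => rw [← h2]
    exact T.symm_apply_apply _
  have hst : ∀ T' : Ω ≃ₐ[L] Ω, T' r ∈ IntermediateField.adjoin L {r} →
      ∀ z ∈ IntermediateField.adjoin L {r}, T' z ∈ IntermediateField.adjoin L {r} := by
    intro T' hT' z hz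
    have h2 : (IntermediateField.adjoin L {r}).map (T' : Ω →ₐ[L] Ω) ≤
        IntermediateField.adjoin L {r} := by
      rw [IntermediateField.adjoin_map, IntermediateField.adjoin_le_iff]
      rintro _ ⟨s, hs, rfl⟩
      rw [Set.mem_singleton_iff] at hs
      rw [hs]
      exact hT'
    exact h2 ⟨z, hz, rfl⟩
  have hfix : ∀ T' : Ω ≃ₐ[L] Ω, T' r = r → ∀ z ∈ IntermediateField.adjoin L {r}, T' z = z := by
    intro T' hT' z hz
    have h2 : IntermediateField.adjoin L {r} ≤ IntermediateField.fixedField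
        (Subgroup.zpowers T') := by
      rw [IntermediateField.adjoin_simple_le_iff, IntermediateField.mem_fixedField_iff]
      rintro f ⟨n, rfl⟩
      have h3 : T' ∈ MulAction.stabilizer (Ω ≃ₐ[L] Ω) r := hT'
      exact (MulAction.stabilizer (Ω ≃ₐ[L] Ω) r).zpow_mem h3 n
    exact (IntermediateField.mem_fixedField_iff _ _).1 (h2 hz) T' (Subgroup.mem_zpowers T')
  have hTpow : ∀ j : ℕ, (T ^ j) r = (algebraMap E Ω ζ) ^ j * r := by
    intro j
    induction j with
    | zero => rw [pow_zero, pow_zero, one_mul]; rfl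
    | succ j ih =>
      rw [pow_succ', pow_succ', AlgEquiv.mul_apply, ih, map_mul, map_pow, hTζ, hTr]
      ring
  have hfin : Module.finrank L (IntermediateField.adjoin L {r}) = ℓ := by
    have hint : IsIntegral L r := Algebra.IsIntegral.isIntegral r
    rw [IntermediateField.adjoin.finrank hint, hm r hr, natDegree_X_pow_sub_C]
  have hfd : FiniteDimensional L (IntermediateField.adjoin L {r}) :=
    IntermediateField.adjoin.finiteDimensional (Algebra.IsIntegral.isIntegral r)
  have hpowR : ∀ j : ℕ, ((T : Ω ≃+* Ω) ^ j : Ω ≃+* Ω) = ((T ^ j : Ω ≃ₐ[L] Ω) : Ω ≃+* Ω) := by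
    intro j
    induction j with
    | zero => rw [pow_zero, pow_zero]; rfl
    | succ j ih => rw [pow_succ, pow_succ, ih]; rfl
  refine ⟨(T : Ω ≃+* Ω), hTL, hTr, fun z hz => ⟨?_, ?_, ?_, ?_⟩⟩
  · exact hst T (by rw [hTr]; exact mul_mem hζL hrm) z hz
  · exact hst T⁻¹ (by rw [hTr']; exact mul_mem (inv_mem hζL) hrm) z hz
  · rw [hpowR]
    exact hfix (T ^ ℓ) (by rw [hTpow, hζℓ, one_mul]) z hz
  · intro hTz
    change T z = z at hTz
    have h2 : IntermediateField.adjoin L {z} ≤ IntermediateField.adjoin L {r} := by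
      rw [IntermediateField.adjoin_simple_le_iff]
      exact hz
    have h3 := IntermediateField.finrank_dvd_of_le_right h2
    rw [hfin] at h3
    rcases (Nat.dvd_prime hℓ).1 h3 with h4 | h4
    · rw [IntermediateField.finrank_adjoin_simple_eq_one_iff] at h4
      obtain ⟨w, hw⟩ := h4
      rw [← hw]
      exact w.2
    · exfalso
      have h5 : IntermediateField.adjoin L {z} = IntermediateField.adjoin L {r} :=
        IntermediateField.eq_of_le_of_finrank_eq h2 (by rw [h4, hfin])
      have h6 : r ∈ IntermediateField.adjoin L {z} := by rw [h5]; exact hrm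
      have h7 : T r = r := by
        have h8 : IntermediateField.adjoin L {z} ≤ IntermediateField.fixedField
            (Subgroup.zpowers T) := by
          rw [IntermediateField.adjoin_simple_le_iff, IntermediateField.mem_fixedField_iff]
          rintro f ⟨n, rfl⟩
          have h3 : T ∈ MulAction.stabilizer (Ω ≃ₐ[L] Ω) z := hTz
          exact (MulAction.stabilizer (Ω ≃ₐ[L] Ω) z).zpow_mem h3 n
        exact (IntermediateField.mem_fixedField_iff _ _).1 (h8 h6) T (Subgroup.mem_zpowers T)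
      rw [hTr] at h7
      have h8 : algebraMap E Ω ζ = 1 := mul_right_cancel₀ hr0 (by rw [h7, one_mul])
      have h9 : ζ = 1 := (algebraMap E Ω).injective (by rw [h8, map_one])
      exact hζ.ne_one hℓ.one_lt h9

end Pool.Agent.PRG
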