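import Pool.Agent.Helper59.ML.BIJ
import Pool.Agent.Helper90.PL.OG

/-!
# Project PL v7, block GCG, part 2: automorphisms of a rational function field with three fixed places
-/

set_option autoImplicit false

namespace Pool.Agent.PRG

open VC IntermediateField Polynomial

section

variable {E F : Type} [Field E] [Field F] [Algebra E F]

/-- an element of `E(s)` is a quotient of coprime polynomials in `s` -/
theorem quot10 {s z : F} (hs : Transcendental E s) (hz : z ∈ IntermediateField.adjoin E {s}) :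
    ∃ A B : E[X], IsCoprime A B ∧ B ≠ 0 ∧ z = aeval s A / aeval s B := by
  classical
  obtain ⟨a, b, hab⟩ := (IntermediateField.mem_adjoin_simple_iff E z).1 hz
  by_cases hb : b = 0
  · refine ⟨0, 1, isCoprime_one_right, one_ne_zero, ?_⟩
    rw [hab, hb, map_zero, div_zero, zero_div]
  · have hinj : Function.Injective (aeval (R := E) s) := transcendental_iff_injective.1 hs
    have hg : EuclideanDomain.gcd a b ≠ 0 := fun h0 => hb (EuclideanDomain.gcd_eq_zero_iff.1 h0).2
    obtain ⟨A, hA⟩ := EuclideanDomain.gcd_dvd_left a b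
    obtain ⟨B, hB⟩ := EuclideanDomain.gcd_dvd_right a b
    have hB0 : B ≠ 0 := by
      rintro rfl
      rw [mul_zero] at hB
      exact hb hB
    refine ⟨A, B, ?_, hB0, ?_⟩
    · refine ⟨EuclideanDomain.gcdA a b, EuclideanDomain.gcdB a b, ?_⟩
      apply mul_left_cancel₀ hg
      have h1 := EuclideanDomain.gcd_eq_gcd_ab a b
      rw [mul_one]
      conv_rhs => rw [h1]
      linear_combination (-EuclideanDomain.gcdA a b) * hA - (EuclideanDomain.gcdB a b) * hB
    · have hgy : aeval s (EuclideanDomain.gcd a b) ≠ 0 := fun h0 => hg (hinj (by rw [h0, map_zero]))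
      have h1 := congrArg (aeval s) hA
      have h2 := congrArg (aeval s) hB
      rw [map_mul] at h1 h2
      rw [hab, h1, h2, mul_div_mul_left _ _ hgy]

/-- the value of a polynomial at a zero of `s` -/
theorem val10 {s : F} {Q : Place E F} (hs : s ∈ Q.ring.nonunits) (A : E[X]) :
    aeval s A - algebraMap E F (A.coeff 0) ∈ Q.ring.nonunits ∧ aeval s A ∈ Q.ring := by
  have hsr : s ∈ Q.ring := ValuationSubring.nonunits_subset hs
  have hall : ∀ A : E[X], aeval s A ∈ Q.ring := by
    intro A
    induction A using Polynomial.induction_on with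
    | C a => rw [aeval_C]; exact Q.algebraMap_mem a
    | add p q hp hq => rw [map_add]; exact Q.ring.add_mem _ _ hp hq
    | monomial n a ih =>
      rw [pow_succ, ← mul_assoc, map_mul, aeval_X]
      exact Q.ring.mul_mem _ _ ih hsr
  refine ⟨?_, hall A⟩
  have h1 : aeval s A - algebraMap E F (A.coeff 0) = aeval s A.divX * s := by
    conv_lhs => rw [← A.divX_mul_X_add]
    rw [map_add, map_mul, aeval_X, aeval_C]
    simp
  rw [h1]
  exact FF.mul_mem_nonunits (hall _) hs

/-- the value of a polynomial at a zero of `s` -/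
theorem val10_iff {s : F} {Q : Place E F} (hs : s ∈ Q.ring.nonunits) (A : E[X]) :
    aeval s A ∈ Q.ring.nonunits ↔ A.coeff 0 = 0 := by
  obtain ⟨h1, h2⟩ := val10 hs A
  constructor
  · intro h3
    refine PL90.const_zero90 Q ?_
    have h4 := sub_mem h3 h1
    rwa [sub_sub_cancel] at h4
  · intro h3
    rw [h3, map_zero, sub_zero] at h1
    exact h1

/-- membership in the ring of the place `s = 0` -/
theorem mem10_iff {s : F} (hs : Transcendental E s) {Q : Place E F} (hsQ : s ∈ Q.ring.nonunits)
    {A B : E[X]} (hAB : IsCoprime A B) (hB : B ≠ 0) :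
    aeval s A / aeval s B ∈ Q.ring ↔ B.coeff 0 ≠ 0 := by
  have hinj : Function.Injective (aeval (R := E) s) := transcendental_iff_injective.1 hs
  have hBs : aeval s B ≠ 0 := fun h0 => hB (hinj (by rw [h0, map_zero]))
  constructor
  · intro h1 h2
    have h3 : aeval s B ∈ Q.ring.nonunits := (val10_iff hsQ B).2 h2
    have h4 : aeval s A ∈ Q.ring.nonunits := by
      have h5 := FF.mul_mem_nonunits h1 h3
      rwa [div_mul_cancel₀ _ hBs] at h5
    have h5 := (val10_iff hsQ A).1 h4
    obtain ⟨u, v, huv⟩ := hAB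
    have h6 := congrArg (fun p : E[X] => p.coeff 0) huv
    simp [h2, h5] at h6
  · intro h1
    have h2 : (aeval s B)⁻¹ ∈ Q.ring := by
      by_contra h3
      exact h1 ((val10_iff hsQ B).1 ((ValuationSubring.mem_nonunits_iff_or _).2 (Or.inr h3)))
    rw [div_eq_mul_inv]
    exact Q.ring.mul_mem _ _ (val10 hsQ A).2 h2

/-- there is only one place of `E(s)` with `s = 0` -/
theorem unique10 {s : F} (hs : Transcendental E s) (htop : IntermediateField.adjoin E {s} = ⊤)
    {Q Q' : Place E F} (h : s ∈ Q.ring.nonunits) (h' : s ∈ Q'.ring.nonunits) : Q = Q' := by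
  apply Place.ext
  ext z
  obtain ⟨A, B, hAB, hB, rfl⟩ := quot10 hs (z := z) (by rw [htop]; exact mem_top)
  rw [mem10_iff hs h hAB hB, mem10_iff hs h' hAB hB]

/-- the inverse image of a place -/
def cm10 (σ : F ≃ₐ[E] F) (Q : Place E F) : Place E F where
  ring := Q.ring.comap (σ : F →+* F)
  algebraMap_mem := fun a => by
    rw [ValuationSubring.mem_comap]
    change σ (algebraMap E F a) ∈ _
    rw [σ.commutes]
    exact Q.algebraMap_mem a
  ne_top := fun h => by
    apply Q.ne_top
    rw [eq_top_iff]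
    intro y _
    have h1 : σ.symm y ∈ Q.ring.comap (σ : F →+* F) := by rw [h]; exact ValuationSubring.mem_top _
    rw [ValuationSubring.mem_comap] at h1
    have h2 : σ (σ.symm y) = y := σ.apply_symm_apply y
    change σ (σ.symm y) ∈ _ at h1
    rwa [h2] at h1

theorem mem_cm10 (σ : F ≃ₐ[E] F) (Q : Place E F) (z : F) : z ∈ (cm10 σ Q).ring ↔ σ z ∈ Q.ring :=
  Iff.rfl

/-- `t` has a pole only at `Q₁` -/
theorem poly10 [IsAlgClosed E] {t : F} (ht : Transcendental E t)
    (htop : IntermediateField.adjoin E {t} = ⊤) {Q₁ : Place E F} (hpole : t ∉ Q₁.ring)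
    (hu : ∀ Q : Place E F, t ∉ Q.ring → Q = Q₁) (σ : F ≃ₐ[E] F)
    (hσ : ∀ z, z ∈ Q₁.ring ↔ σ z ∈ Q₁.ring) : ∃ A : E[X], σ t = aeval t A := by
  obtain ⟨A, B, hAB, hB, hσt⟩ := quot10 ht (z := σ t) (by rw [htop]; exact mem_top)
  by_cases hdeg : B.natDegree = 0
  · obtain ⟨b, hb⟩ : ∃ b : E, B = C b := ⟨_, eq_C_of_natDegree_eq_zero hdeg⟩
    have hb0 : b ≠ 0 := by
      rintro rfl
      rw [C_0] at hb
      exact hB hb
    refine ⟨C b⁻¹ * A, ?_⟩
    rw [hσt, hb, map_mul, aeval_C, aeval_C, map_inv₀, div_eq_mul_inv, mul_comm]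
  · exfalso
    obtain ⟨β, hβ⟩ := IsAlgClosed.exists_root B (fun h => hdeg (natDegree_eq_of_degree_eq_some h))
    -- the place `t = β`
    have hs : Transcendental E (t - algebraMap E F β) := by
      intro h1
      apply ht
      have h2 := h1.add (isAlgebraic_algebraMap β : IsAlgebraic E (algebraMap E F β))
      rwa [sub_add_cancel] at h2
    obtain ⟨Q, hQ⟩ := FF.exists_place hs
    have hcomp : ∀ P : E[X], aeval (t - algebraMap E F β) (P.comp (X + C β)) = aeval t P := by
      intro P
      rw [aeval_comp]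
      congr 1
      rw [map_add, aeval_X, aeval_C, sub_add_cancel]
    have hcop : IsCoprime (A.comp (X + C β)) (B.comp (X + C β)) := by
      obtain ⟨u, v, huv⟩ := hAB
      refine ⟨u.comp (X + C β), v.comp (X + C β), ?_⟩
      rw [← mul_comp, ← mul_comp, ← add_comp, huv, one_comp]
    have hB' : B.comp (X + C β) ≠ 0 := by
      intro h0
      apply hB
      have h1 := congrArg (fun P : E[X] => P.comp (X - C β)) h0
      rw [comp_assoc, add_comp, X_comp, C_comp, sub_add_cancel, comp_X, zero_comp] at h1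
      exact h1
    have h1 : σ t ∉ Q.ring := by
      rw [hσt, ← hcomp A, ← hcomp B, mem10_iff hs hQ hcop hB', not_not]
      rw [coeff_zero_eq_eval_zero, eval_comp]
      simpa using hβ
    have h2 : cm10 σ Q = Q₁ := hu _ h1
    have h3 : Q = Q₁ := by
      apply Place.ext
      ext z
      have h4 : σ.symm z ∈ (cm10 σ Q).ring ↔ σ.symm z ∈ Q₁.ring := by rw [h2]
      rw [mem_cm10, hσ, σ.apply_symm_apply] at h4
      exact h4
    rw [← h3] at hpole
    apply hpole
    have h4 := Q.ring.add_mem _ _ (ValuationSubring.nonunits_subset hQ) (Q.algebraMap_mem β)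
    rwa [sub_add_cancel] at h4

/-- **An automorphism of a rational function field which fixes three places is the identity.** -/
theorem mob10 [IsAlgClosed E] {y : F} (hy : Transcendental E y)
    (htop : IntermediateField.adjoin E {y} = ⊤) (σ : F ≃ₐ[E] F) {Q₁ Q₂ Q₃ : Place E F}
    (h12 : Q₁ ≠ Q₂) (h13 : Q₁ ≠ Q₃) (h23 : Q₂ ≠ Q₃)
    (hσ₁ : ∀ z, z ∈ Q₁.ring ↔ σ z ∈ Q₁.ring) (hσ₂ : ∀ z, z ∈ Q₂.ring ↔ σ z ∈ Q₂.ring)
    (hσ₃ : ∀ z, z ∈ Q₃.ring ↔ σ z ∈ Q₃.ring) (z : F) : σ z = z := by
  -- a generator with its pole at `Q₁`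
  obtain ⟨t, ht, htt, hpole⟩ : ∃ t : F, Transcendental E t ∧
      IntermediateField.adjoin E {t} = ⊤ ∧ t ∉ Q₁.ring := by
    by_cases h1 : y ∈ Q₁.ring
    · have hF : IsFunctionField E F := by
        refine ⟨y, hy, ?_⟩
        rw [htop]
        exact Module.Finite.of_surjective (R := (⊤ : IntermediateField E F))
          (M := (⊤ : IntermediateField E F)) (Algebra.linearMap (⊤ : IntermediateField E F) F)
          fun z => ⟨⟨z, IntermediateField.mem_top⟩, rfl⟩
      obtain ⟨a, ha⟩ := FF.exists_residue hF Q₁ h1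
      have h0 : y - algebraMap E F a ≠ 0 := by
        intro h0
        rw [sub_eq_zero] at h0
        rw [h0] at hy
        exact hy (isAlgebraic_algebraMap a)
      have h2 : y ∈ IntermediateField.adjoin E {(y - algebraMap E F a)⁻¹} := by
        have h3 : y = ((y - algebraMap E F a)⁻¹)⁻¹ + algebraMap E F a := by
          rw [inv_inv, sub_add_cancel]
        rw [h3]
        refine add_mem (inv_mem ?_) (IntermediateField.algebraMap_mem _ _)
        rw [← h3]
        exact mem_adjoin_simple_self E _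
      refine ⟨(y - algebraMap E F a)⁻¹, ?_, ?_, ?_⟩
      · intro h3
        have h4 := (h3.inv).add (isAlgebraic_algebraMap a : IsAlgebraic E (algebraMap E F a))
        rw [inv_inv, sub_add_cancel] at h4
        exact hy h4
      · rw [eq_top_iff, ← htop, IntermediateField.adjoin_simple_le_iff]
        exact h2
      · rcases (ValuationSubring.mem_nonunits_iff_or _).1 ha with h3 | h3
        · exact absurd h3 h0
        · exact h3
    · exact ⟨y, hy, htop, h1⟩
  have ht0 : t ≠ 0 := by
    rintro rfl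
    exact ht isAlgebraic_zero
  have hu : ∀ Q : Place E F, t ∉ Q.ring → Q = Q₁ := by
    have hs : Transcendental E t⁻¹ := fun h1 => ht (by simpa using h1.inv)
    have hst : IntermediateField.adjoin E {t⁻¹} = ⊤ := by
      rw [eq_top_iff, ← htt, IntermediateField.adjoin_simple_le_iff]
      have h1 := inv_mem (mem_adjoin_simple_self E t⁻¹)
      rwa [inv_inv] at h1
    have h1 : ∀ Q : Place E F, t ∉ Q.ring → t⁻¹ ∈ Q.ring.nonunits := fun Q hQ =>
      (ValuationSubring.mem_nonunits_iff_or _).2 (Or.inr (by rwa [inv_inv]))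
    exact fun Q hQ => unique10 hs hst (h1 Q hQ) (h1 Q₁ hpole)
  have hσ₁' : ∀ z, z ∈ Q₁.ring ↔ σ.symm z ∈ Q₁.ring := fun z => by
    rw [hσ₁ (σ.symm z), σ.apply_symm_apply]
  obtain ⟨A, hA⟩ := poly10 ht htt hpole hu σ hσ₁
  obtain ⟨A', hA'⟩ := poly10 ht htt hpole hu σ.symm hσ₁'
  have hinj : Function.Injective (aeval (R := E) t) := transcendental_iff_injective.1 ht
  have h1 : A'.comp A = X := by
    apply hinj
    rw [aeval_comp, aeval_X, ← hA]
    have h2 : aeval (σ t) A' = σ (aeval t A') := aeval_algHom_apply (σ : F →ₐ[E] F) t A'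
    rw [h2, ← hA', σ.apply_symm_apply]
  have h2 : A.natDegree = 1 := by
    have h3 := congrArg natDegree h1
    rw [natDegree_comp, natDegree_X] at h3
    exact Nat.eq_one_of_mul_eq_one_left h3
  obtain ⟨α, β, hαβ⟩ : ∃ α β : E, A = C α * X + C β :=
    ⟨_, _, eq_X_add_C_of_natDegree_le_one h2.le⟩
  rw [hαβ, map_add, map_mul, aeval_C, aeval_C, aeval_X] at hA
  have hF : IsFunctionField E F := by
    refine ⟨y, hy, ?_⟩
    rw [htop]
    exact Module.Finite.of_surjective (R := (⊤ : IntermediateField E F))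
      (M := (⊤ : IntermediateField E F)) (Algebra.linearMap (⊤ : IntermediateField E F) F)
      fun z => ⟨⟨z, IntermediateField.mem_top⟩, rfl⟩
  -- the values of `t`
  have hres : ∀ Q : Place E F, Q ≠ Q₁ → (∀ z, z ∈ Q.ring ↔ σ z ∈ Q.ring) →
      ∃ τ : E, t - algebraMap E F τ ∈ Q.ring.nonunits ∧ α * τ + β = τ := by
    intro Q hQ hσQ
    have htQ : t ∈ Q.ring := by
      by_contra h3
      exact hQ (hu Q h3)
    obtain ⟨τ, hτ⟩ := FF.exists_residue hF Q htQ
    refine ⟨τ, hτ, ?_⟩
    have hn : σ (t - algebraMap E F τ) ∈ Q.ring.nonunits := by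
      rcases (ValuationSubring.mem_nonunits_iff_or _).1 hτ with h3 | h3
      · rw [h3, map_zero]
        exact (ValuationSubring.mem_nonunits_iff_or _).2 (Or.inl rfl)
      · refine (ValuationSubring.mem_nonunits_iff_or _).2 (Or.inr fun h4 => h3 ?_)
        rw [hσQ, map_inv₀]
        exact h4
    rw [map_sub, σ.commutes, hA] at hn
    have h4 := FF.mul_mem_nonunits (Q.algebraMap_mem α) hτ
    have h5 := sub_mem hn h4
    have e : algebraMap E F α * t + algebraMap E F β - algebraMap E F τ -
        algebraMap E F α * (t - algebraMap E F τ) = algebraMap E F (α * τ + β - τ) := by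
      rw [map_sub, map_add, map_mul]
      ring
    rw [e] at h5
    exact sub_eq_zero.1 (FF.algebraMap_mem_nonunits Q h5)
  obtain ⟨τ₂, ht₂, he₂⟩ := hres Q₂ h12.symm hσ₂
  obtain ⟨τ₃, ht₃, he₃⟩ := hres Q₃ h13.symm hσ₃
  have hne : τ₂ ≠ τ₃ := by
    rintro rfl
    apply h23
    refine unique10 (s := t - algebraMap E F τ₂) ?_ ?_ ht₂ ht₃
    · intro h3
      apply ht
      have h4 := h3.add (isAlgebraic_algebraMap τ₂ : IsAlgebraic E (algebraMap E F τ₂))
      rwa [sub_add_cancel] at h4
    · rw [eq_top_iff, ← htt, IntermediateField.adjoin_simple_le_iff]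
      have h3 := add_mem (mem_adjoin_simple_self E (t - algebraMap E F τ₂))
        (IntermediateField.algebraMap_mem (IntermediateField.adjoin E {t - algebraMap E F τ₂}) τ₂)
      rwa [sub_add_cancel] at h3
  have hα : α = 1 := by
    have h3 : (α - 1) * (τ₂ - τ₃) = 0 := by linear_combination he₂ - he₃
    rcases mul_eq_zero.1 h3 with h4 | h4
    · exact sub_eq_zero.1 h4
    · exact absurd (sub_eq_zero.1 h4) hne
  have hβ : β = 0 := by
    rw [hα, one_mul] at he₂
    exact add_eq_left.1 he₂
  have hσt : σ t = t := by rw [hA, hα, hβ, map_one, map_zero, one_mul, add_zero]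
  -- the fixed elements
  let S : IntermediateField E F :=
    { carrier := {z | σ z = z}
      mul_mem' := fun {a b} ha hb => by
        change σ (a * b) = a * b
        rw [map_mul, ha, hb]
      add_mem' := fun {a b} ha hb => by
        change σ (a + b) = a + b
        rw [map_add, ha, hb]
      algebraMap_mem' := fun a => σ.commutes a
      inv_mem' := fun a ha => by
        change σ a⁻¹ = a⁻¹
        rw [map_inv₀, ha] }
  have h3 : (⊤ : IntermediateField E F) ≤ S := by
    rw [← htt, IntermediateField.adjoin_simple_le_iff]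
    exact hσt
  exact h3 (IntermediateField.mem_top (x := z))

end

end Pool.Agent.PRG
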