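import Pool.Agent.Helper10.PLG.Ga
import Pool.Agent.Helper10.PLG.Mob
import Pool.Agent.Helper10.PLG.Kum
import Pool.Agent.Helper37.L.TRc
import Pool.Agent.Helper99.LN.Defs

/-!
# Project PL v7, block GCG: cyclic covers with at least three branch points

`k` algebraically closed in the function field `K0`, `y ^ ℓ = h` with at least three geometric branch
points, `ℓ` prime: the cover is geometrically irreducible of degree `ℓ`, and not rational.
-/

set_option autoImplicit false
set_option linter.unusedSectionVars false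

namespace Pool.Agent.PRG

open VC IntermediateField NumberField Pool.Agent.SC
open Pool.Agent.L (L0 MM cst)
open Pool.Agent.LN (GoodCurve)
open Pool.Agent.M (Moves OverPl inL0)
open Pool.Agent.ML (GBr)
open Pool.Agent.MP (jj jj_eq jj_const exists_place_phi)

noncomputable section

section

variable {k K0 : Type} [Field k] [CharZero k] [Field K0] [Algebra k K0]

theorem galE10 : IsGalois k (E10 k K0) := by
  have hE : IsAlgClosure k (E10 k K0) := algebraicClosure.isAlgClosure k _
  exact ⟨⟩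

/-- the place of `E K0` of a geometric branch point -/
theorem pl10 (hreg : ∀ z : K0, IsAlgebraic k z → ∃ a : k, algebraMap k K0 a = z)
    (hff : IsFunctionField k K0) {ℓ : ℕ} (hℓ : 0 < ℓ) {h : K0} (B : GBr k (E10 k K0) ℓ h) :
    ∃ b : Place (E10 k K0) (L0 (E10 k K0) K0 (U := N10 k K0)),
      (∀ x : K0, jj (E10 k K0) K0 (N10 k K0) x ∈ b.ring ↔ x ∈ B.P) ∧
      (∀ x : B.P, jj (E10 k K0) K0 (N10 k K0) x - algebraMap (E10 k K0) _ (B.φ x) ∈
        b.ring.nonunits) ∧
      ¬ (ℓ : ℤ) ∣ ord b.ring (inL0 h) := by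
  obtain ⟨Φ, hΦ⟩ := exists_act10 hreg
  have hg : IsGalois k (E10 k K0) := galE10
  have hcl : IsAlgClosed (E10 k K0) := (algebraicClosure.isAlgClosure k _).isAlgClosed
  have hh0 : h ≠ 0 := by
    rintro rfl
    apply B.ram 0
    rw [map_zero, zero_pow hℓ.ne']
  have htop : B.P ≠ ⊤ := by
    intro htop
    apply B.ram 1
    rw [map_one, one_pow]
    have h2 : h ∈ B.P := by rw [htop]; trivial
    have h3 : h⁻¹ ∈ B.P := by rw [htop]; trivial
    rw [← ValuationSubring.valuation_le_one_iff] at h2 h3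
    rw [map_inv₀] at h3
    have h4 : B.P.valuation h ≠ 0 := (Valuation.ne_zero_iff _).2 hh0
    exact le_antisymm h2 ((inv_le_one₀ (zero_lt_iff.2 h4)).1 h3)
  obtain ⟨b, hb1, hb2⟩ := exists_place_phi (U := N10 k K0) hΦ B.P htop B.const B.φ B.emb
  have halg : Algebra.IsAlgebraic k (E10 k K0) := inferInstance
  have hff' : IsFunctionField (E10 k K0) (L0 (E10 k K0) K0 (U := N10 k K0)) := L.TR.ff_L0 hff
  refine ⟨b, hb1, hb2, ?_⟩
  intro hd
  obtain ⟨z, hz⟩ := (ML.dvd_iff hff' hh0 hΦ normal10 b hℓ).1 hd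
  have hP : b.ring.comap (jj (E10 k K0) K0 (N10 k K0)) = B.P := SetLike.ext hb1
  rw [hP] at hz
  exact B.ram z hz

/-! ### Transport to the algebraic closure -/

theorem memN10 {z : AlgebraicClosure K0} (hz : z ∈ L0 (E10 k K0) K0 (U := AlgebraicClosure K0)) :
    z ∈ N10 k K0 := by
  induction hz using IntermediateField.adjoin_induction with
  | mem y hy =>
    obtain ⟨x, rfl⟩ := hy
    exact (N10 k K0).algebraMap_mem x
  | algebraMap e => exact IntermediateField.subset_adjoin _ _ e.2
  | add y y' _ _ h h' => exact add_mem h h'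
  | inv y _ h => exact inv_mem h
  | mul y y' _ _ h h' => exact mul_mem h h'

theorem memΩ10 {z : AlgebraicClosure K0} (hz : z ∈ N10 k K0) :
    z ∈ L0 (E10 k K0) K0 (U := AlgebraicClosure K0) := by
  induction hz using IntermediateField.adjoin_induction with
  | mem y hy =>
    exact (L0 (E10 k K0) K0 (U := AlgebraicClosure K0)).algebraMap_mem (⟨y, hy⟩ : E10 k K0)
  | algebraMap x => exact IntermediateField.subset_adjoin _ _ ⟨x, rfl⟩
  | add y y' _ _ h h' => exact add_mem h h'
  | inv y _ h => exact inv_mem h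
  | mul y y' _ _ h h' => exact mul_mem h h'

theorem memL10 (z : N10 k K0) : z ∈ L0 (E10 k K0) K0 (U := N10 k K0) := by
  obtain ⟨z, hz⟩ := z
  refine IntermediateField.adjoin_induction K0 (p := fun z hz =>
    (⟨z, hz⟩ : N10 k K0) ∈ L0 (E10 k K0) K0 (U := N10 k K0)) ?_ ?_ ?_ ?_ ?_ hz
  · intro e he
    exact (L0 (E10 k K0) K0 (U := N10 k K0)).algebraMap_mem (⟨e, he⟩ : E10 k K0)
  · intro x
    exact IntermediateField.subset_adjoin _ _ ⟨x, rfl⟩
  · intro a b ha hb h1 h2
    exact add_mem h1 h2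
  · intro a ha h1
    exact inv_mem h1
  · intro a b ha hb h1 h2
    exact mul_mem h1 h2

variable (k K0) in
/-- the comparison map -/
def f10 : L0 (E10 k K0) K0 (U := AlgebraicClosure K0) →+* L0 (E10 k K0) K0 (U := N10 k K0) where
  toFun z := ⟨⟨z, memN10 z.2⟩, memL10 _⟩
  map_one' := rfl
  map_mul' _ _ := rfl
  map_zero' := rfl
  map_add' _ _ := rfl

theorem f10_surj : Function.Surjective (f10 k K0) := fun w =>
  ⟨⟨w.1.1, memΩ10 w.1.2⟩, rfl⟩

theorem f10_const (e : E10 k K0) : f10 k K0 (algebraMap (E10 k K0) _ e) =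
    algebraMap (E10 k K0) _ e := rfl

theorem f10_inL0 (x : K0) : f10 k K0 (inL0 x) = inL0 x := rfl

/-- the place of `E K0`, in the algebraic closure of `K0`, of a geometric branch point -/
theorem plΩ10 (hreg : ∀ z : K0, IsAlgebraic k z → ∃ a : k, algebraMap k K0 a = z)
    (hff : IsFunctionField k K0) {ℓ : ℕ} (hℓ : 0 < ℓ) {h : K0} (B : GBr k (E10 k K0) ℓ h) :
    ∃ b : Place (E10 k K0) (L0 (E10 k K0) K0 (U := AlgebraicClosure K0)),
      (∀ x : K0, inL0 x ∈ b.ring ↔ x ∈ B.P) ∧
      (∀ x : B.P, inL0 (x : K0) - algebraMap (E10 k K0) _ (B.φ x) ∈ b.ring.nonunits) ∧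
      ¬ (ℓ : ℤ) ∣ ord b.ring (inL0 h) := by
  obtain ⟨b, hb1, hb2, hb3⟩ := pl10 hreg hff hℓ B
  have hcl : IsAlgClosed (E10 k K0) := (algebraicClosure.isAlgClosure k _).isAlgClosed
  have halg : Algebra.IsAlgebraic k (E10 k K0) := inferInstance
  have hffN : IsFunctionField (E10 k K0) (L0 (E10 k K0) K0 (U := N10 k K0)) := L.TR.ff_L0 hff
  have hffΩ : IsFunctionField (E10 k K0) (L0 (E10 k K0) K0 (U := AlgebraicClosure K0)) :=
    L.TR.ff_L0 hff
  obtain ⟨b', hb'⟩ : ∃ b' : Place (E10 k K0) (L0 (E10 k K0) K0 (U := AlgebraicClosure K0)),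
      ∀ z, z ∈ b'.ring ↔ f10 k K0 z ∈ b.ring := by
    refine ⟨⟨b.ring.comap (f10 k K0), fun e => ?_, fun htop => ?_⟩, fun z => Iff.rfl⟩
    · rw [ValuationSubring.mem_comap, f10_const]
      exact b.algebraMap_mem e
    · apply b.ne_top
      rw [eq_top_iff]
      intro w _
      obtain ⟨z, rfl⟩ := f10_surj w
      have h1 : z ∈ b.ring.comap (f10 k K0) := by rw [htop]; exact ValuationSubring.mem_top _
      exact h1
  have hn : ∀ z, z ∈ b'.ring.nonunits ↔ f10 k K0 z ∈ b.ring.nonunits := by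
    intro z
    rw [ValuationSubring.mem_nonunits_iff_or, ValuationSubring.mem_nonunits_iff_or, ← map_inv₀,
      hb', map_eq_zero]
  refine ⟨b', fun x => (hb' _).trans (hb1 x), fun x => (hn _).2 ?_, ?_⟩
  · rw [map_sub, f10_inL0, f10_const]
    exact hb2 x
  · rintro ⟨m, hm⟩
    apply hb3
    have hh0 : h ≠ 0 := by
      rintro rfl
      apply B.ram 0
      rw [map_zero, zero_pow hℓ.ne']
    have hi : Function.Injective (algebraMap K0 (AlgebraicClosure K0)) :=
      (algebraMap K0 (AlgebraicClosure K0)).injective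
    have hh : (inL0 h : L0 (E10 k K0) K0 (U := AlgebraicClosure K0)) ≠ 0 := fun h0 =>
      hh0 (hi (by rw [map_zero]; exact congrArg Subtype.val h0))
    have hhN : (inL0 h : L0 (E10 k K0) K0 (U := N10 k K0)) ≠ 0 := by
      rw [← f10_inL0, map_ne_zero]
      exact hh
    obtain ⟨π, hπ0, hπ⟩ := FF.exists_uniformizer hffΩ b'
    obtain ⟨t, ht⟩ : ∃ t, t = π ^ m := ⟨_, rfl⟩
    have ht0 : t ≠ 0 := by
      rw [ht]
      exact zpow_ne_zero _ hπ0
    have hordt : ord b'.ring t = m := by
      rw [ht, FF.ord_zpow hffΩ b' hπ0, hπ, mul_one]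
    have hw0 : inL0 h / t ^ ℓ ≠ 0 := div_ne_zero hh (pow_ne_zero _ ht0)
    have hw : ord b'.ring (inL0 h / t ^ ℓ) = 0 := by
      rw [FF.ord_div hffΩ b' hh (pow_ne_zero _ ht0), FF.ord_pow hffΩ b' ht0, hordt, hm]
      ring
    have h1 : inL0 h / t ^ ℓ ∈ b'.ring := (FF.ord_nonneg_iff hffΩ b' hw0).1 hw.ge
    have h2 : inL0 h / t ^ ℓ ∉ b'.ring.nonunits := fun h3 => by
      have := (FF.ord_pos_iff hffΩ b' hw0).2 h3
      omega
    rw [hb'] at h1
    rw [hn] at h2
    have hw0' : f10 k K0 (inL0 h / t ^ ℓ) ≠ 0 := (map_ne_zero _).2 hw0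
    have h3 := (FF.ord_nonneg_iff hffN b hw0').2 h1
    have h4 : ¬ 0 < ord b.ring (f10 k K0 (inL0 h / t ^ ℓ)) := fun h5 =>
      h2 ((FF.ord_pos_iff hffN b hw0').1 h5)
    have ht0' : f10 k K0 t ≠ 0 := (map_ne_zero _).2 ht0
    rw [map_div₀, map_pow, f10_inL0, FF.ord_div hffN b hhN (pow_ne_zero _ ht0'),
      FF.ord_pow hffN b ht0'] at h3 h4
    exact ⟨ord b.ring (f10 k K0 t), by omega⟩

end

/-- transport of the geometric branch points to another algebraic closure -/
def tr10 {k K0 E E' : Type} [Field k] [Field K0] [Field E] [Field E'] [Algebra k K0] [Algebra k E]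
    [Algebra k E'] {ℓ : ℕ} {h : K0} (e : E ≃ₐ[k] E') (b : GBr k E ℓ h) : GBr k E' ℓ h where
  P := b.P
  φ := (e : E →+* E').comp b.φ
  const := b.const
  ram := b.ram
  emb := fun a x hx => by
    change e (b.φ x) = _
    rw [b.emb a x hx, e.commutes]

theorem tr10_inj {k K0 E E' : Type} [Field k] [Field K0] [Field E] [Field E'] [Algebra k K0]
    [Algebra k E] [Algebra k E'] {ℓ : ℕ} {h : K0} (e : E ≃ₐ[k] E') :
    Function.Injective (tr10 (K0 := K0) (ℓ := ℓ) (h := h) e) := by
  rintro ⟨P, φ, h1, h2, h3⟩ ⟨P', φ', h1', h2', h3'⟩ hb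
  obtain rfl : P = P' := congrArg GBr.P hb
  have h4 : (e : E →+* E').comp φ = (e : E →+* E').comp φ' := by
    have := congrArg (fun b : GBr k E' ℓ h => HEq b.φ b.φ) hb
    injection hb
  have h5 : φ = φ' := RingHom.ext fun x => e.injective (RingHom.congr_fun h4 x)
  subst h5
  rfl

/-- a power of `r` in a subfield with `r ^ ℓ` -/
theorem mem_pow10 {F : Type} [Field F] (T : Subfield F) {ℓ i : ℕ} (hℓ : ℓ.Prime)
    (hi : 0 < i) (hil : i < ℓ) {r : F} (h1 : r ^ ℓ ∈ T) (h2 : r ^ i ∈ T) : r ∈ T := by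
  by_cases hr : r = 0
  · rw [hr]
    exact zero_mem T
  have hco : IsCoprime (i : ℤ) (ℓ : ℤ) := by
    rw [Nat.isCoprime_iff_coprime]
    exact ((Nat.Prime.coprime_iff_not_dvd hℓ).2 fun h => absurd (Nat.le_of_dvd hi h) (by omega)).symm
  obtain ⟨a, b, hab⟩ := hco
  have h3 : r = (r ^ i) ^ a * (r ^ ℓ) ^ b := by
    rw [← zpow_natCast, ← zpow_natCast, ← zpow_mul, ← zpow_mul, ← zpow_add₀ hr,
      mul_comm (i : ℤ) a, mul_comm (ℓ : ℤ) b, hab, zpow_one]
  rw [h3]
  exact mul_mem (zpow_mem h2 a) (zpow_mem h1 b)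

/-- BLOCK GCG: a cyclic cover of prime degree with at least three geometric branch points is
geometrically irreducible, and not rational. -/
def StmtGCG : Prop :=
  ∀ (k K0 : Type) [Field k] [NumberField k] [Field K0] [Algebra k K0] (ℓ : ℕ) (h : K0), ℓ.Prime →
    IsFunctionField k K0 → (∀ z : K0, IsAlgebraic k z → ∃ a : k, algebraMap k K0 a = z) →
    3 ≤ Nat.card (GBr k (AlgebraicClosure k) ℓ h) → GoodCurve k ℓ h

theorem gCG : StmtGCG := by
  intro k K0 _ _ _ _ ℓ h hℓ hff hreg h3
  have hclE : IsAlgClosed (E10 k K0) := (algebraicClosure.isAlgClosure k _).isAlgClosed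
  have halgE : Algebra.IsAlgebraic k (E10 k K0) := inferInstance
  have hchE : CharZero (E10 k K0) := charZero_of_injective_algebraMap
    (algebraMap k (E10 k K0)).injective
  have hffΩ : IsFunctionField (E10 k K0) (L0 (E10 k K0) K0 (U := AlgebraicClosure K0)) :=
    L.TR.ff_L0 hff
  -- three branch points
  obtain ⟨B₁, B₂, B₃, h12, h13, h23⟩ : ∃ B₁ B₂ B₃ : GBr k (E10 k K0) ℓ h,
      B₁ ≠ B₂ ∧ B₁ ≠ B₃ ∧ B₂ ≠ B₃ := by
    have hac : IsAlgClosure k (E10 k K0) := algebraicClosure.isAlgClosure k _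
    let e : AlgebraicClosure k ≃ₐ[k] E10 k K0 := IsAlgClosure.equiv k _ _
    have hfin : Finite (GBr k (AlgebraicClosure k) ℓ h) := Nat.finite_of_card_ne_zero (by omega)
    have : Fintype (GBr k (AlgebraicClosure k) ℓ h) := Fintype.ofFinite _
    rw [Nat.card_eq_fintype_card] at h3
    obtain ⟨a, b, c, hab, hac', hbc⟩ := Fintype.two_lt_card_iff.1 h3
    exact ⟨tr10 e a, tr10 e b, tr10 e c, fun h => hab (tr10_inj e h), fun h => hac' (tr10_inj e h),
      fun h => hbc (tr10_inj e h)⟩
  have hpl : ∀ B : GBr k (E10 k K0) ℓ h,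
      ∃ b : Place (E10 k K0) (L0 (E10 k K0) K0 (U := AlgebraicClosure K0)),
      (∀ x : K0, inL0 x ∈ b.ring ↔ x ∈ B.P) ∧
      (∀ x : B.P, inL0 (x : K0) - algebraMap (E10 k K0) _ (B.φ x) ∈ b.ring.nonunits) ∧
      ¬ (ℓ : ℤ) ∣ ord b.ring (inL0 h) := plΩ10 hreg hff hℓ.pos
  choose β hβ1 hβ2 hβ3 using hpl
  have hβinj : Function.Injective β := by
    intro B B' hb
    have hP : B.P = B'.P := by
      ext x
      rw [← hβ1 B, ← hβ1 B', hb]
    obtain ⟨P, φ, c1, c2, c3⟩ := B
    obtain ⟨P', φ', c1', c2', c3'⟩ := B'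
    dsimp only at hP
    subst hP
    have h5 : φ = φ' := by
      refine RingHom.ext fun x => ?_
      have e1 := hβ2 ⟨P, φ, c1, c2, c3⟩ x
      have e2 := hβ2 ⟨P, φ', c1', c2', c3'⟩ x
      rw [← hb] at e2
      exact FF.residue_unique _ e1 e2
    subst h5
    rfl
  have hh0 : h ≠ 0 := by
    rintro rfl
    apply B₁.ram 0
    rw [map_zero, zero_pow hℓ.ne_zero]
  have hh : (inL0 h : L0 (E10 k K0) K0 (U := AlgebraicClosure K0)) ≠ 0 := fun h0 =>
    hh0 ((algebraMap K0 (AlgebraicClosure K0)).injective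
      (by rw [map_zero]; exact congrArg Subtype.val h0))
  -- `h` is no power
  have hnp : ∀ b : L0 (E10 k K0) K0 (U := AlgebraicClosure K0), b ^ ℓ ≠ inL0 h := by
    intro b hb
    apply hβ3 B₁
    have hb0 : b ≠ 0 := by
      rintro rfl
      rw [zero_pow hℓ.ne_zero] at hb
      exact hh hb.symm
    rw [← hb, FF.ord_pow hffΩ _ hb0]
    exact dvd_mul_right _ _
  have hle : Subfield.closure (cst k K0 ∪ Set.range (algebraMap K0 (AlgebraicClosure K0))) ≤
      (L0 (E10 k K0) K0 (U := AlgebraicClosure K0)).toSubfield := by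
    rw [Subfield.closure_le]
    rintro z (hz | ⟨x, rfl⟩)
    · exact (L0 (E10 k K0) K0 (U := AlgebraicClosure K0)).algebraMap_mem
        (⟨z, mem_algebraicClosure_iff.2 hz⟩ : E10 k K0)
    · exact IntermediateField.subset_adjoin _ _ ⟨x, rfl⟩
  refine ⟨hff, ?_, ?_⟩
  · intro r hr i hi hil hmem
    have h5 : r ∈ (L0 (E10 k K0) K0 (U := AlgebraicClosure K0)).toSubfield := by
      refine mem_pow10 _ hℓ hi hil ?_ (hle hmem)
      rw [hr]
      exact IntermediateField.subset_adjoin _ _ ⟨h, rfl⟩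
    exact hnp ⟨r, h5⟩ (Subtype.ext hr)
  · intro r hr y heq
    obtain ⟨L, hL⟩ : ∃ L, L = L0 (E10 k K0) K0 (U := AlgebraicClosure K0) := ⟨_, rfl⟩
    obtain ⟨N, hN⟩ : ∃ N, N = MM (E10 k K0) K0 (U := AlgebraicClosure K0) r := ⟨_, rfl⟩
    have hLN : L ≤ N := by
      rw [hL, hN]
      exact IntermediateField.adjoin.mono _ _ _ Set.subset_union_left
    have hrN : r ∈ N := by
      rw [hN]
      exact IntermediateField.subset_adjoin _ _ (Or.inr rfl)
    have hr0 : r ≠ 0 := by
      rintro rfl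
      rw [zero_pow hℓ.ne_zero] at hr
      exact hh0 ((algebraMap K0 (AlgebraicClosure K0)).injective (by rw [map_zero, hr]))
    -- `Ω` is algebraic over `L`
    have halgL : Algebra.IsAlgebraic L (AlgebraicClosure K0) := by
      refine ⟨fun z => ?_⟩
      obtain ⟨p, hp0, hp⟩ := Algebra.IsAlgebraic.isAlgebraic (R := K0) z
      have hjL : ∀ x : K0, algebraMap K0 (AlgebraicClosure K0) x ∈ L := fun x => by
        rw [hL]
        exact IntermediateField.subset_adjoin _ _ ⟨x, rfl⟩
      let j : K0 →+* L := (algebraMap K0 (AlgebraicClosure K0)).codRestrict L.toSubfield hjL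
      refine ⟨p.map j, (Polynomial.map_ne_zero_iff j.injective).2 hp0, ?_⟩
      rw [Polynomial.aeval_def, Polynomial.eval₂_map]
      exact hp
    have hmemN : ∀ z, z ∈ N ↔ z ∈ IntermediateField.adjoin L {r} := by
      intro z
      constructor
      · intro hz
        rw [hN] at hz
        induction hz using IntermediateField.adjoin_induction with
        | mem w hw =>
          rcases hw with ⟨x, rfl⟩ | hw
          · refine (IntermediateField.adjoin L {r}).algebraMap_mem
              (⟨algebraMap K0 (AlgebraicClosure K0) x, ?_⟩ : L)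
            rw [hL]
            exact IntermediateField.subset_adjoin _ _ ⟨x, rfl⟩
          · rw [Set.mem_singleton_iff] at hw
            rw [hw]
            exact mem_adjoin_simple_self L r
        | algebraMap e =>
          exact (IntermediateField.adjoin L {r}).algebraMap_mem (algebraMap (E10 k K0) L e)
        | add w w' _ _ h1 h2 => exact add_mem h1 h2
        | inv w _ h1 => exact inv_mem h1
        | mul w w' _ _ h1 h2 => exact mul_mem h1 h2
      · intro hz
        induction hz using IntermediateField.adjoin_induction with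
        | mem w hw =>
          rw [Set.mem_singleton_iff] at hw
          rw [hw]
          exact hrN
        | algebraMap w => exact hLN w.2
        | add w w' _ _ h1 h2 => exact add_mem h1 h2
        | inv w _ h1 => exact inv_mem h1
        | mul w w' _ _ h1 h2 => exact mul_mem h1 h2
    -- `N = E(y)`
    have hleN : Subfield.closure (cst k K0 ∪ Set.range (algebraMap K0 (AlgebraicClosure K0)) ∪ {r})
        ≤ N.toSubfield := by
      rw [Subfield.closure_le]
      rintro z ((hz | ⟨x, rfl⟩) | hz)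
      · exact N.algebraMap_mem (⟨z, mem_algebraicClosure_iff.2 hz⟩ : E10 k K0)
      · rw [hN]
        exact IntermediateField.subset_adjoin _ _ (Or.inl ⟨x, rfl⟩)
      · rw [Set.mem_singleton_iff] at hz
        rw [hz]
        exact hrN
    have hyN : y ∈ N := by
      apply hleN
      rw [heq]
      exact Subfield.subset_closure (Or.inr rfl)
    have hley : Subfield.closure (cst k K0 ∪ {y}) ≤
        (IntermediateField.adjoin (E10 k K0) {y}).toSubfield := by
      rw [Subfield.closure_le]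
      rintro z (hz | hz)
      · exact (IntermediateField.adjoin (E10 k K0) {y}).algebraMap_mem
          (⟨z, mem_algebraicClosure_iff.2 hz⟩ : E10 k K0)
      · rw [Set.mem_singleton_iff] at hz
        rw [hz]
        exact mem_adjoin_simple_self _ y
    have hNy : N = IntermediateField.adjoin (E10 k K0) {y} := by
      apply le_antisymm
      · rw [hN]
        refine IntermediateField.adjoin_le_iff.2 fun z hz => hley ?_
        rw [← heq]
        refine Subfield.subset_closure ?_
        rcases hz with hz | hz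
        · exact Or.inl (Or.inr hz)
        · exact Or.inr hz
      · rw [IntermediateField.adjoin_simple_le_iff]
        exact hyN
    have hytr : Transcendental (E10 k K0) y := by
      intro hy
      obtain ⟨t, ht, -⟩ := hffΩ
      apply ht
      have h1 : Algebra.IsAlgebraic (E10 k K0) (IntermediateField.adjoin (E10 k K0) {y}) :=
        IntermediateField.isAlgebraic_adjoin_simple hy.isIntegral
      have h2 : (t : AlgebraicClosure K0) ∈ IntermediateField.adjoin (E10 k K0) {y} := by
        rw [← hNy]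
        apply hLN
        rw [hL]
        exact t.2
      have h4 := h1.isAlgebraic ⟨t, h2⟩
      have h5 : IsAlgebraic (E10 k K0) (t : AlgebraicClosure K0) :=
        h4.algebraMap (A := AlgebraicClosure K0)
      exact (isAlgebraic_algebraMap_iff (algebraMap
        (L0 (E10 k K0) K0 (U := AlgebraicClosure K0)) (AlgebraicClosure K0)).injective).1 h5
    obtain ⟨y', hy'⟩ : ∃ y' : N, (y' : AlgebraicClosure K0) = y := ⟨⟨y, hyN⟩, rfl⟩
    have hy'tr : Transcendental (E10 k K0) y' := by
      intro h1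
      apply hytr
      rw [← hy']
      exact h1.algebraMap (A := AlgebraicClosure K0)
    have htop : IntermediateField.adjoin (E10 k K0) {y'} = ⊤ := by
      apply IntermediateField.map_injective N.val
      rw [IntermediateField.adjoin_map, ← AlgHom.fieldRange_eq_map, IntermediateField.fieldRange_val,
        Set.image_singleton]
      change IntermediateField.adjoin (E10 k K0) {(y' : AlgebraicClosure K0)} = N
      rw [hy', hNy]
    -- the automorphism
    have hne : NeZero (ℓ : E10 k K0) := ⟨Nat.cast_ne_zero.2 hℓ.ne_zero⟩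
    obtain ⟨ζ, hζ⟩ := HasEnoughRootsOfUnity.exists_primitiveRoot (E10 k K0) ℓ
    subst hL
    obtain ⟨T, hTL, hTr, hT⟩ := kummer10 (L0 (E10 k K0) K0 (U := AlgebraicClosure K0)) halgL hℓ
      (a := inL0 h) hr hnp hζ
    have hTN : ∀ z ∈ N, T z ∈ N := fun z hz => (hmemN _).2 (hT z ((hmemN z).1 hz)).1
    have hTN' : ∀ z ∈ N, T⁻¹ z ∈ N := fun z hz => (hmemN _).2 (hT z ((hmemN z).1 hz)).2.1
    have hog : ∀ B : GBr k (E10 k K0) ℓ h, ∃ Q : Place (E10 k K0) N, OverPl (β B) Q ∧
        Moves T N Q Q := by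
      intro B
      obtain ⟨⟨Q, hQ⟩, hu⟩ := PL90.og3 hLN hffΩ hTL hTN hℓ
        (fun z hz => (hT z ((hmemN z).1 hz)).2.2.1) (fun z hz => (hT z ((hmemN z).1 hz)).2.2.2)
        hrN hr0 hζ hTr (h := inL0 h) hr.symm (hβ3 B)
      exact ⟨Q, hQ, (hu Q Q hQ hQ).2⟩
    choose γ hγ1 hγ2 using hog
    have hγinj : ∀ B B' : GBr k (E10 k K0) ℓ h, B ≠ B' → γ B ≠ γ B' := by
      intro B B' hne h1
      apply hne
      apply hβinj
      apply Place.ext
      ext x
      have e1 := hγ1 B x.1 x.2 (hLN x.2)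
      have e2 := hγ1 B' x.1 x.2 (hLN x.2)
      rw [← h1] at e2
      exact e1.trans e2.symm
    have hTT' : ∀ z, T (T⁻¹ z) = z := fun z => T.apply_symm_apply z
    have hT'T : ∀ z, T⁻¹ (T z) = z := fun z => T.symm_apply_apply z
    let σ : N ≃ₐ[E10 k K0] N :=
      { toFun := fun z => ⟨T z, hTN z z.2⟩
        invFun := fun z => ⟨T⁻¹ z, hTN' z z.2⟩
        left_inv := fun z => Subtype.ext (hT'T z)
        right_inv := fun z => Subtype.ext (hTT' z)
        map_mul' := fun z w => Subtype.ext (map_mul T (z : AlgebraicClosure K0) w)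
        map_add' := fun z w => Subtype.ext (map_add T (z : AlgebraicClosure K0) w)
        commutes' := fun e => Subtype.ext (hTL _ (IntermediateField.algebraMap_mem _ e)) }
    have hσ : ∀ B : GBr k (E10 k K0) ℓ h, ∀ z, z ∈ (γ B).ring ↔ σ z ∈ (γ B).ring := fun B z =>
      hγ2 B z.1 z.2 (hTN z z.2)
    have hfinal := mob10 hy'tr htop σ (hγinj _ _ h12) (hγinj _ _ h13) (hγinj _ _ h23)
      (hσ B₁) (hσ B₂) (hσ B₃) ⟨r, hrN⟩
    have h5 : T r = r := congrArg Subtype.val hfinal
    rw [hTr] at h5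
    have h8 : algebraMap (E10 k K0) (AlgebraicClosure K0) ζ = 1 :=
      mul_right_cancel₀ hr0 (by rw [h5, one_mul])
    have h9 : ζ = 1 := (algebraMap (E10 k K0) (AlgebraicClosure K0)).injective
      (by rw [h8, map_one])
    exact hζ.ne_one hℓ.one_lt h9

end

end Pool.Agent.PRG
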