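import Pool.Agent.Helper59.ML.BIJ

/-!
# Project PL v7, block GCG, part 1: the Galois action on `E K0`

`k` algebraically closed in `K0`, `E` the algebraic closure of `k` in an algebraic closure of `K0`:
every automorphism of `E` over `k` extends to `E K0`, over `K0`.
-/

set_option autoImplicit false
set_option linter.unusedSectionVars false
set_option linter.unusedVariables false

namespace Pool.Agent.PRG

open IntermediateField

noncomputable section

variable (k K0 : Type) [Field k] [CharZero k] [Field K0] [Algebra k K0]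

/-- the constants -/
abbrev E10 : IntermediateField k (AlgebraicClosure K0) := algebraicClosure k (AlgebraicClosure K0)

/-- the field `E K0` -/
abbrev N10 : IntermediateField K0 (AlgebraicClosure K0) :=
  IntermediateField.adjoin K0 (E10 k K0 : Set (AlgebraicClosure K0))

/-- the restriction to the constants -/
def res10 : (AlgebraicClosure K0 ≃ₐ[K0] AlgebraicClosure K0) →* (E10 k K0 ≃ₐ[k] E10 k K0) :=
  (AlgEquiv.restrictNormalHom (F := k) (K₁ := AlgebraicClosure K0) (E10 k K0)).comp
    (AlgEquiv.restrictScalarsHom k)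

theorem coe_res10 (σ : AlgebraicClosure K0 ≃ₐ[K0] AlgebraicClosure K0) (e : E10 k K0) :
    ((res10 k K0 σ e : E10 k K0) : AlgebraicClosure K0) = σ e :=
  AlgEquiv.restrictNormal_commutes (σ.restrictScalars k) (E10 k K0) e

theorem cont_res10 : Continuous (res10 k K0) := by
  apply continuous_of_continuousAt_one _ (continuousAt_def.mpr _)
  intro N hN
  rw [map_one, krullTopology_mem_nhds_one_iff] at hN
  obtain ⟨L, hL, hO⟩ := hN
  obtain ⟨θ, hθ⟩ := Field.exists_primitive_element k L
  rw [krullTopology_mem_nhds_one_iff]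
  refine ⟨IntermediateField.adjoin K0 {((θ : E10 k K0) : AlgebraicClosure K0)},
    IntermediateField.adjoin.finiteDimensional (Algebra.IsIntegral.isIntegral _), ?_⟩
  intro σ hσ
  apply hO
  have h1 : σ ((θ : E10 k K0) : AlgebraicClosure K0) = ((θ : E10 k K0) : AlgebraicClosure K0) :=
    (IntermediateField.mem_fixingSubgroup_iff _ _).1 hσ _ (mem_adjoin_simple_self K0 _)
  have h2 : res10 k K0 σ (θ : E10 k K0) = θ := Subtype.ext (by rw [coe_res10, h1])
  rw [SetLike.mem_coe, IntermediateField.mem_fixingSubgroup_iff]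
  intro x hx
  -- the elements fixed by `res σ`
  let S : IntermediateField k L :=
    { carrier := {z | res10 k K0 σ (z : E10 k K0) = z}
      mul_mem' := fun {a b} ha hb => by
        change res10 k K0 σ ((a : E10 k K0) * b) = a * b
        rw [map_mul, ha, hb]
      add_mem' := fun {a b} ha hb => by
        change res10 k K0 σ ((a : E10 k K0) + b) = a + b
        rw [map_add, ha, hb]
      algebraMap_mem' := fun a => AlgEquiv.commutes _ _
      inv_mem' := fun a ha => by
        change res10 k K0 σ ((a : E10 k K0)⁻¹) = (a : E10 k K0)⁻¹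
        rw [map_inv₀, ha] }
  have h3 : (⊤ : IntermediateField k L) ≤ S := by
    rw [← hθ, IntermediateField.adjoin_simple_le_iff]
    exact h2
  exact h3 (IntermediateField.mem_top (x := ⟨x, hx⟩))

variable {k K0}

/-- **The restriction to the constants is surjective.** -/
theorem res10_surj (hreg : ∀ z : K0, IsAlgebraic k z → ∃ a : k, algebraMap k K0 a = z) :
    Function.Surjective (res10 k K0) := by
  have hc0 : CharZero K0 := charZero_of_injective_algebraMap (algebraMap k K0).injective
  have hgal : IsGalois K0 (AlgebraicClosure K0) := inferInstance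
  have hE : IsAlgClosure k (E10 k K0) := algebraicClosure.isAlgClosure k _
  have hgalE : IsGalois k (E10 k K0) := ⟨⟩
  have hcl : IsClosed ((res10 k K0).range : Set (E10 k K0 ≃ₐ[k] E10 k K0)) := by
    rw [MonoidHom.coe_range]
    exact (isCompact_range (cont_res10 k K0)).isClosed
  obtain ⟨H, hH⟩ : ∃ H : ClosedSubgroup (E10 k K0 ≃ₐ[k] E10 k K0), H.1 = (res10 k K0).range :=
    ⟨⟨(res10 k K0).range, hcl⟩, rfl⟩
  have h1 := InfiniteGalois.fixingSubgroup_fixedField H
  have h2 : IntermediateField.fixedField H.1 = ⊥ := by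
    rw [eq_bot_iff]
    intro x hx
    rw [hH, IntermediateField.mem_fixedField_iff] at hx
    have h3 : ((x : E10 k K0) : AlgebraicClosure K0) ∈ Set.range (algebraMap K0 _) := by
      rw [InfiniteGalois.mem_range_algebraMap_iff_fixed]
      intro σ
      have h4 := hx (res10 k K0 σ) ⟨σ, rfl⟩
      rw [← coe_res10, h4]
    obtain ⟨z, hz⟩ := h3
    have h5 : IsAlgebraic k z := by
      have h6 : IsAlgebraic k (algebraMap K0 (AlgebraicClosure K0) z) := by
        rw [hz]
        exact mem_algebraicClosure_iff.1 x.2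
      exact (isAlgebraic_algebraMap_iff (algebraMap K0 (AlgebraicClosure K0)).injective).1 h6
    obtain ⟨a, rfl⟩ := hreg z h5
    refine ⟨a, Subtype.ext ?_⟩
    rw [← hz, ← IsScalarTower.algebraMap_apply k K0]
    rfl
  rw [h2, IntermediateField.fixingSubgroup_bot, hH] at h1
  exact MonoidHom.range_eq_top.1 h1.symm

/-! ### The action on `E K0` -/

variable (k K0) in
/-- the inclusion of the constants -/
def inc10 : E10 k K0 →+* N10 k K0 :=
  (algebraMap (E10 k K0) (AlgebraicClosure K0)).codRestrict (N10 k K0).toSubfield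
    fun e => IntermediateField.subset_adjoin _ _ e.2

instance alg10 : Algebra (E10 k K0) (N10 k K0) := (inc10 k K0).toAlgebra

theorem coe_alg10 (e : E10 k K0) :
    ((algebraMap (E10 k K0) (N10 k K0) e : N10 k K0) : AlgebraicClosure K0) = e := rfl

instance tower10 : IsScalarTower k (E10 k K0) (N10 k K0) :=
  IsScalarTower.of_algebraMap_eq fun a => Subtype.ext rfl

theorem normal10 : Normal K0 (N10 k K0) := by
  rw [IntermediateField.normal_iff_forall_map_le']
  intro σ
  rw [IntermediateField.adjoin_map, IntermediateField.adjoin_le_iff]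
  rintro _ ⟨e, he, rfl⟩
  refine IntermediateField.subset_adjoin _ _ ?_
  change σ e ∈ E10 k K0
  rw [mem_algebraicClosure_iff] at *
  have h1 : IsAlgebraic k e := mem_algebraicClosure_iff.1 he
  exact h1.algHom (σ.restrictScalars k : AlgebraicClosure K0 →ₐ[k] AlgebraicClosure K0)

variable (k K0) in
/-- the restriction to `E K0` -/
def resN10 [Normal K0 (N10 k K0)] :
    (AlgebraicClosure K0 ≃ₐ[K0] AlgebraicClosure K0) →* (N10 k K0 ≃+* N10 k K0) where
  toFun σ := (AlgEquiv.restrictNormalHom (N10 k K0) σ).toRingEquiv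
  map_one' := by
    rw [map_one]
    rfl
  map_mul' σ τ := by
    rw [map_mul]
    rfl

theorem coe_resN10 [Normal K0 (N10 k K0)] (σ : AlgebraicClosure K0 ≃ₐ[K0] AlgebraicClosure K0)
    (z : N10 k K0) : ((resN10 k K0 σ z : N10 k K0) : AlgebraicClosure K0) = σ z :=
  AlgEquiv.restrictNormal_commutes σ (N10 k K0) z

/-- **The action of the Galois group of `k` on `E K0`.** -/
theorem exists_act10 (hreg : ∀ z : K0, IsAlgebraic k z → ∃ a : k, algebraMap k K0 a = z) :
    ∃ Φ : (E10 k K0 ≃ₐ[k] E10 k K0) →* (N10 k K0 ≃+* N10 k K0),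
      L.Act (K0 := K0) (1 : N10 k K0) (1 : k) Φ := by
  have hN : Normal K0 (N10 k K0) := normal10
  have hs := res10_surj hreg
  have hker : (res10 k K0).ker ≤ (resN10 k K0).ker := by
    intro σ hσ
    rw [MonoidHom.mem_ker] at hσ ⊢
    apply RingEquiv.ext
    intro z
    apply Subtype.ext
    rw [coe_resN10]
    change σ z = z
    have h1 : N10 k K0 ≤ IntermediateField.fixedField (Subgroup.zpowers σ) := by
      rw [IntermediateField.adjoin_le_iff]
      intro e he
      rw [SetLike.mem_coe, IntermediateField.mem_fixedField_iff]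
      have h2 : σ e = e := by
        rw [← coe_res10 k K0 σ ⟨e, he⟩, hσ]
        rfl
      rintro f ⟨n, rfl⟩
      have h3 : σ ∈ MulAction.stabilizer _ e := h2
      exact (MulAction.stabilizer (AlgebraicClosure K0 ≃ₐ[K0] AlgebraicClosure K0) e).zpow_mem h3 n
    exact (IntermediateField.mem_fixedField_iff _ _).1 (h1 z.2) σ (Subgroup.mem_zpowers σ)
  obtain ⟨Φ, hΦ⟩ : ∃ Φ : (E10 k K0 ≃ₐ[k] E10 k K0) →* (N10 k K0 ≃+* N10 k K0),
      ∀ σ, Φ (res10 k K0 σ) = resN10 k K0 σ :=
    ⟨MonoidHom.liftOfSurjective (res10 k K0) hs ⟨resN10 k K0, hker⟩, fun σ =>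
      MonoidHom.liftOfRightInverse_comp_apply _ _ _ ⟨resN10 k K0, hker⟩ σ⟩
  refine ⟨Φ, ?_, ?_, ?_, ?_⟩
  · intro g e
    obtain ⟨σ, rfl⟩ := hs g
    apply Subtype.ext
    rw [hΦ, coe_resN10, coe_alg10, coe_alg10, coe_res10]
  · intro g x
    obtain ⟨σ, rfl⟩ := hs g
    apply Subtype.ext
    rw [hΦ, coe_resN10]
    exact σ.commutes x
  · intro g d hd
    have h1 : g d = d := by
      have h2 : (d - 1) * (d + 1) = 0 := by
        rw [map_one] at hd
        linear_combination hd
      rcases mul_eq_zero.1 h2 with h3 | h3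
      · rw [sub_eq_zero.1 h3, map_one]
      · rw [eq_neg_of_add_eq_zero_left h3, map_neg, map_one]
    rw [h1, map_one, one_mul, mul_one]
  · rintro ⟨z, hz⟩
    refine IntermediateField.adjoin_induction K0 (p := fun z hz =>
      ∃ L : IntermediateField k (E10 k K0), FiniteDimensional k L ∧
        ∀ g : E10 k K0 ≃ₐ[k] E10 k K0, (∀ x ∈ L, g x = x) →
          Φ g (⟨z, hz⟩ : N10 k K0) = ⟨z, hz⟩) ?_ ?_ ?_ ?_ ?_ hz
    · intro e he
      refine ⟨IntermediateField.adjoin k {(⟨e, he⟩ : E10 k K0)},
        IntermediateField.adjoin.finiteDimensional (Algebra.IsIntegral.isIntegral _), ?_⟩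
      intro g hg
      obtain ⟨σ, rfl⟩ := hs g
      apply Subtype.ext
      rw [hΦ, coe_resN10]
      have h1 := congrArg (fun x : E10 k K0 => (x : AlgebraicClosure K0))
        (hg _ (mem_adjoin_simple_self k (⟨e, he⟩ : E10 k K0)))
      dsimp only at h1
      rw [coe_res10] at h1
      exact h1
    · intro x
      refine ⟨⊥, inferInstance, fun g _ => ?_⟩
      obtain ⟨σ, rfl⟩ := hs g
      apply Subtype.ext
      rw [hΦ, coe_resN10]
      exact σ.commutes x
    · rintro a b ha hb ⟨L, hL, h1⟩ ⟨L', hL', h2⟩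
      refine ⟨L ⊔ L', IntermediateField.finiteDimensional_sup L L', fun g hg => ?_⟩
      have e1 := h1 g fun x hx => hg x ((le_sup_left : L ≤ L ⊔ L') hx)
      have e2 := h2 g fun x hx => hg x ((le_sup_right : L' ≤ L ⊔ L') hx)
      have e3 : (⟨a + b, add_mem ha hb⟩ : N10 k K0) = ⟨a, ha⟩ + ⟨b, hb⟩ := rfl
      rw [e3, map_add, e1, e2]
    · rintro a ha ⟨L, hL, h1⟩
      refine ⟨L, hL, fun g hg => ?_⟩
      have e3 : (⟨a⁻¹, inv_mem ha⟩ : N10 k K0) = (⟨a, ha⟩)⁻¹ := rfl
      rw [e3, map_inv₀, h1 g hg]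
    · rintro a b ha hb ⟨L, hL, h1⟩ ⟨L', hL', h2⟩
      refine ⟨L ⊔ L', IntermediateField.finiteDimensional_sup L L', fun g hg => ?_⟩
      have e1 := h1 g fun x hx => hg x ((le_sup_left : L ≤ L ⊔ L') hx)
      have e2 := h2 g fun x hx => hg x ((le_sup_right : L' ≤ L ⊔ L') hx)
      have e3 : (⟨a * b, mul_mem ha hb⟩ : N10 k K0) = ⟨a, ha⟩ * ⟨b, hb⟩ := rfl
      rw [e3, map_mul, e1, e2]

end

end Pool.Agent.PRG
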